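import Pool.Agent.N7.Q.Triv

set_option autoImplicit false

/-!
# The refined Quillen conjecture for `GL_n` over `S`-integers

The hypothesis that all classes are detected on finite subgroups is never satisfied for `n ≥ 1`:
the ring of `S`-integers contains the unit `l`, so some valuation `v` above `l` gives, after
division by the generator of its image, a surjection from the units to `ZMod l` which kills all
units of finite order. Its composition with the determinant is a nonzero class in
`H^1(GL_n(O_{K,S}); ZMod l)` which vanishes on all finite subgroups. For `n = 0` the cohomology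
ring is `ZMod l`.
-/

open IsDedekindDomain
open scoped NumberField

namespace Pool.Agent.Results.MP_e82a76_al.RefinedQuillen

open Pool.Agent.N7.Q

/-- Every nonzero class in `H^•(G; ZMod l)` restricts nontrivially to some finite subgroup. -/
def DetectedOnFinite (l : ℕ) (G : Type) [Group G] : Prop :=
  ∀ x : GroupCohomologyRing l G, x ≠ 0 → ∃ F : Subgroup G, Finite F ∧ restrict l F x ≠ 0

/-- **The refined Quillen conjecture.** Let `K` be a number field containing a primitive `l`-th root
of unity, `n < l`, `S` a finite set of finite places of `K` containing all places above `l` (the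
infinite places being understood), and `ι : O_{K,S} → ℂ` an embedding. If every nonzero class in
`H^•(GL_n(O_{K,S}); ZMod l)` restricts nontrivially to at least one finite subgroup, then this ring
is free as a module over the image of the restriction map
`H^•(B GL_n(ℂ)^top; ZMod l) → H^•(GL_n(O_{K,S}); ZMod l)`. -/
theorem result (K : Type) [Field K] [NumberField K] (l : ℕ) [Fact l.Prime]
    (_hζ : ∃ ζ : K, IsPrimitiveRoot ζ l) (n : ℕ) (_hn : n < l)
    (S : Set (HeightOneSpectrum (𝓞 K))) (_hS : S.Finite)
    (hSl : ∀ v : HeightOneSpectrum (𝓞 K), (l : 𝓞 K) ∈ v.asIdeal → v ∈ S)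
    (ι : S.integer K →+* ℂ) (_hι : Function.Injective ι)
    (hdetected : DetectedOnFinite l (GL (Fin n) (S.integer K))) :
    Module.Free (restrictTop l (Matrix.GeneralLinearGroup.map (n := Fin n) ι)).range
      (GroupCohomologyRing l (GL (Fin n) (S.integer K))) := by
  rcases Nat.eq_zero_or_pos n with rfl | hn0
  · have : Subsingleton (GL (Fin 0) (S.integer K)) :=
      ⟨fun a b => Units.ext (Subsingleton.elim _ _)⟩
    apply free_of_forall_mem
    intro a
    obtain ⟨N, h⟩ := eq_natCast l (GL (Fin 0) (S.integer K)) a
    have h' : a = (N : GroupCohomologyRing l (GL (Fin 0) (S.integer K))) := h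
    rw [h']
    exact natCast_mem _ N
  · obtain ⟨x, hx, h⟩ := exists_undetected K l n hn0 S hSl
    obtain ⟨F, hF, hxF⟩ := hdetected x hx
    exact absurd (h F hF) hxF

end Pool.Agent.Results.MP_e82a76_al.RefinedQuillen
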